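import Mathlib

set_option autoImplicit false
set_option linter.unusedSectionVars false

/-!
For a nonzero element `α` of the rational group algebra of a group `G`, the two-sided ideal
generated by `α` in the group algebra of the wreath product of the group of order two and `G`
contains a nonzero idempotent.
-/

namespace Pool.Agent.Q119.Gener

/-- Membership in the two-sided ideal generated by an element. -/
inductive Gen {R : Type} [Ring R] (a : R) : R → Prop
  | base : Gen a a
  | sub {x y : R} : Gen a x → Gen a y → Gen a (x - y)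
  | left {x : R} (r : R) : Gen a x → Gen a (r * x)
  | right {x : R} (r : R) : Gen a x → Gen a (x * r)

theorem Gen.map {R S : Type} [Ring R] [Ring S] (f : R →+* S) {a x : R} (h : Gen a x) :
    Gen (f a) (f x) := by
  induction h with
  | base => exact Gen.base
  | sub _ _ h1 h2 => rw [map_sub]; exact Gen.sub h1 h2
  | left r _ h1 => rw [map_mul]; exact Gen.left _ h1
  | right r _ h1 => rw [map_mul]; exact Gen.right _ h1

section wreath

variable (G : Type) [Group G]

/-- The translations. -/
def tr : G →* Equiv.Perm (G × Bool) where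
  toFun g :=
    { toFun := fun t => (g * t.1, t.2)
      invFun := fun t => (g⁻¹ * t.1, t.2)
      left_inv := fun t => by simp
      right_inv := fun t => by simp }
  map_one' := by ext t <;> simp
  map_mul' g h := by ext t <;> simp [mul_assoc]

variable {G}

open Classical in
/-- The switches. -/
noncomputable def sw (a : G) : Equiv.Perm (G × Bool) where
  toFun t := if t.1 = a then (t.1, !t.2) else t
  invFun t := if t.1 = a then (t.1, !t.2) else t
  left_inv t := by
    obtain ⟨b, s⟩ := t
    by_cases h : b = a <;> simp [h]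
  right_inv t := by
    obtain ⟨b, s⟩ := t
    by_cases h : b = a <;> simp [h]

theorem sw_apply_self (a : G) (s : Bool) : sw a (a, s) = (a, !s) := by simp [sw]

theorem sw_apply_of_ne {a b : G} (h : b ≠ a) (s : Bool) : sw a (b, s) = (b, s) := by
  simp [sw, h]

theorem tr_apply (g : G) (t : G × Bool) : tr G g t = (g * t.1, t.2) := rfl

theorem sw_mul_self (a : G) : sw a * sw a = 1 := by
  ext ⟨b, s⟩ : 1
  by_cases h : b = a
  · subst h
    rw [Equiv.Perm.mul_apply, sw_apply_self, sw_apply_self]; simp
  · rw [Equiv.Perm.mul_apply, sw_apply_of_ne h, sw_apply_of_ne h]; simp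

theorem sw_comm (a b : G) : sw a * sw b = sw b * sw a := by
  by_cases hab : a = b
  · rw [hab]
  ext ⟨c, s⟩ : 1
  rw [Equiv.Perm.mul_apply, Equiv.Perm.mul_apply]
  by_cases h : c = a
  · subst h
    rw [sw_apply_of_ne hab, sw_apply_self, sw_apply_of_ne hab]
  · by_cases h' : c = b
    · subst h'
      rw [sw_apply_self, sw_apply_of_ne h, sw_apply_of_ne h, sw_apply_self]
    · rw [sw_apply_of_ne h, sw_apply_of_ne h', sw_apply_of_ne h]

theorem sw_tr (g : G) : sw 1 * tr G g = tr G g * sw g⁻¹ := by
  ext ⟨c, s⟩ : 1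
  rw [Equiv.Perm.mul_apply, Equiv.Perm.mul_apply, tr_apply]
  by_cases h : c = g⁻¹
  · subst h
    rw [sw_apply_self, tr_apply]
    simp only [mul_inv_cancel]
    rw [sw_apply_self]
  · rw [sw_apply_of_ne h, tr_apply]
    have h2 : g * c ≠ 1 := by
      intro h3
      exact h (eq_inv_of_mul_eq_one_right h3)
    exact sw_apply_of_ne h2 _

variable (G) in
/-- The wreath product. -/
noncomputable def HH : Subgroup (Equiv.Perm (G × Bool)) :=
  (FreeGroup.lift (Sum.elim (fun g => tr G g) sw : G ⊕ G → Equiv.Perm (G × Bool))).range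

instance [Countable G] : Countable (HH G) :=
  (MonoidHom.rangeRestrict_surjective
    (FreeGroup.lift (Sum.elim (fun g => tr G g) sw : G ⊕ G → Equiv.Perm (G × Bool)))).countable

theorem tr_mem (g : G) : tr G g ∈ HH G := ⟨FreeGroup.of (Sum.inl g), by simp⟩

theorem sw_mem (a : G) : sw a ∈ HH G := ⟨FreeGroup.of (Sum.inr a), by simp⟩

variable (G) in
/-- The embedding. -/
noncomputable def emb : G →* HH G := (tr G).codRestrict (HH G) tr_mem

theorem emb_injective : Function.Injective (emb G) := by
  intro g h hgh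
  have h1 := congrArg Subtype.val hgh
  have h2 := congrArg (fun e : Equiv.Perm (G × Bool) => (e (1, true)).1) h1
  have h3 : g * 1 = h * 1 := h2
  simpa using h3

/-- The switches as elements of the wreath product. -/
noncomputable def swH (a : G) : HH G := ⟨sw a, sw_mem a⟩

/-- The group algebra of the wreath product. -/
abbrev RR (G : Type) [Group G] : Type := MonoidAlgebra ℚ (HH G)

/-- The switches in the group algebra. -/
noncomputable def bt (g : G) : RR G := MonoidAlgebra.of ℚ (HH G) (swH g⁻¹)

/-- The translations in the group algebra. -/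
noncomputable def tt (g : G) : RR G := MonoidAlgebra.of ℚ (HH G) (emb G g)

theorem bt_comm (g h : G) : bt g * bt h = bt h * bt g := by
  unfold bt
  rw [← map_mul, ← map_mul]
  congr 1
  exact Subtype.ext (sw_comm _ _)

theorem bt_self (g : G) : bt g * bt g = 1 := by
  unfold bt
  rw [← map_mul, ← map_one (MonoidAlgebra.of ℚ (HH G))]
  congr 1
  exact Subtype.ext (sw_mul_self _)

theorem bt_tt (g : G) : bt 1 * tt g = tt g * bt g := by
  unfold bt tt
  rw [← map_mul, ← map_mul]
  congr 1
  apply Subtype.ext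
  have := sw_tr g
  simpa [swH, emb] using this

/-- The products of the differences. -/
noncomputable def Pr (g : G) : List G → RR G
  | [] => 1
  | h :: L => Pr g L * (1 - bt g * bt h)

/-- The iterated operators. -/
noncomputable def Dr (x : RR G) : List G → RR G
  | [] => x
  | h :: L => Dr x L - bt 1 * Dr x L * bt h

theorem Dr_gen (x : RR G) (L : List G) : Gen x (Dr x L) := by
  induction L with
  | nil => exact Gen.base
  | cons h L ih => exact Gen.sub ih (Gen.right _ (Gen.left _ ih))

theorem Pr_comm (g k : G) (L : List G) : bt k * Pr g L = Pr g L * bt k := by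
  induction L with
  | nil => simp [Pr]
  | cons h L ih =>
    rw [Pr, ← mul_assoc, ih, mul_assoc, mul_assoc]
    congr 1
    rw [mul_sub, sub_mul, mul_one, one_mul, ← mul_assoc, bt_comm k g, mul_assoc, bt_comm k h,
      mul_assoc]

theorem Dr_sum (s : Finset G) (c : G → ℚ) (L : List G) :
    Dr (∑ g ∈ s, c g • tt g) L = ∑ g ∈ s, c g • (tt g * Pr g L) := by
  induction L with
  | nil => simp [Dr, Pr]
  | cons h L ih =>
    rw [Dr, ih, Finset.mul_sum, Finset.sum_mul, ← Finset.sum_sub_distrib]
    refine Finset.sum_congr rfl fun g _ => ?_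
    rw [mul_smul_comm, smul_mul_assoc, ← smul_sub, Pr, ← mul_assoc (bt 1), bt_tt, mul_assoc,
      mul_assoc (tt g), ← mul_sub, ← mul_assoc (bt g), Pr_comm, mul_sub (Pr g L), mul_one,
      mul_assoc (Pr g L)]

theorem Pr_mem {g : G} {L : List G} (h : g ∈ L) : Pr g L = 0 := by
  induction L with
  | nil => simp at h
  | cons k L ih =>
    rw [Pr]
    rcases List.mem_cons.1 h with rfl | h
    · rw [bt_self, sub_self, mul_zero]
    · rw [ih h, zero_mul]

theorem Pr_idem (g : G) (L : List G) : Pr g L * Pr g L = (2 : ℚ) ^ L.length • Pr g L := by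
  induction L with
  | nil => simp [Pr]
  | cons h L ih =>
    have h1 : (1 - bt g * bt h) * Pr g L = Pr g L * (1 - bt g * bt h) := by
      rw [sub_mul, mul_sub, one_mul, mul_one, mul_assoc, Pr_comm, ← mul_assoc, Pr_comm, mul_assoc]
    have h2 : (1 - bt g * bt h) * (1 - bt g * bt h) = (2 : ℚ) • (1 - bt g * bt h) := by
      have h3 : bt g * bt h * (bt g * bt h) = 1 := by
        rw [mul_assoc, ← mul_assoc (bt h), bt_comm h g, mul_assoc, bt_self, mul_one, bt_self]
      rw [mul_sub, mul_one, sub_mul, one_mul, h3, two_smul]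
      abel
    rw [Pr, mul_assoc, ← mul_assoc _ (Pr g L), h1, ← mul_assoc, ← mul_assoc, ih, mul_assoc, h2,
      List.length_cons, smul_mul_assoc, mul_smul_comm, smul_smul, pow_succ]

/-- The permutation representation. -/
noncomputable def rep : HH G →* Module.End ℚ (G × Bool → ℚ) where
  toFun h :=
    { toFun := fun f t => f ((h⁻¹ : HH G).1 t)
      map_add' := fun _ _ => rfl
      map_smul' := fun _ _ => rfl }
  map_one' := by
    apply LinearMap.ext
    intro f
    funext t
    simp
  map_mul' a b := by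
    apply LinearMap.ext
    intro f
    funext t
    simp

open Classical in
/-- The vector. -/
noncomputable def vv (g : G) : G × Bool → ℚ :=
  fun t => if t.1 = g⁻¹ then (if t.2 then 1 else -1) else 0

theorem rep_bt_self (g : G) : MonoidAlgebra.lift ℚ (Module.End ℚ (G × Bool → ℚ)) (HH G) rep (bt g)
    (vv g) = -vv g := by
  unfold bt
  rw [MonoidAlgebra.lift_of]
  funext ⟨c, s⟩
  have hinv : ((swH g⁻¹)⁻¹ : HH G) = swH g⁻¹ :=
    inv_eq_of_mul_eq_one_left (Subtype.ext (sw_mul_self _))
  change vv g (((swH g⁻¹)⁻¹ : HH G).1 (c, s)) = -vv g (c, s)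
  rw [hinv]
  change vv g (sw g⁻¹ (c, s)) = _
  by_cases h : c = g⁻¹
  · subst h
    rw [sw_apply_self]
    cases s <;> simp [vv]
  · rw [sw_apply_of_ne h]
    simp [vv, h]

theorem rep_bt_of_ne {g h : G} (hgh : h ≠ g) :
    MonoidAlgebra.lift ℚ (Module.End ℚ (G × Bool → ℚ)) (HH G) rep (bt h) (vv g) = vv g := by
  unfold bt
  rw [MonoidAlgebra.lift_of]
  funext ⟨c, s⟩
  have hinv : ((swH h⁻¹)⁻¹ : HH G) = swH h⁻¹ :=
    inv_eq_of_mul_eq_one_left (Subtype.ext (sw_mul_self _))
  change vv g (((swH h⁻¹)⁻¹ : HH G).1 (c, s)) = vv g (c, s)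
  rw [hinv]
  change vv g (sw h⁻¹ (c, s)) = _
  by_cases h1 : c = h⁻¹
  · subst h1
    rw [sw_apply_self]
    have : ¬ (h⁻¹ = g⁻¹) := fun h2 => hgh (inv_injective h2)
    simp [vv, this]
  · rw [sw_apply_of_ne h1]

theorem rep_Pr {g : G} {L : List G} (hL : g ∉ L) :
    MonoidAlgebra.lift ℚ (Module.End ℚ (G × Bool → ℚ)) (HH G) rep (Pr g L) (vv g)
      = (2 : ℚ) ^ L.length • vv g := by
  induction L with
  | nil => simp [Pr]
  | cons h L ih =>
    rw [List.mem_cons, not_or] at hL
    rw [Pr, map_mul, Module.End.mul_apply, map_sub, LinearMap.sub_apply, map_one, map_mul,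
      Module.End.mul_apply, rep_bt_of_ne (Ne.symm hL.1), rep_bt_self, Module.End.one_apply,
      sub_neg_eq_add, map_add, ih hL.2, List.length_cons, pow_succ, ← two_smul ℚ, smul_smul,
      mul_comm]

theorem Pr_ne_zero {g : G} {L : List G} (hL : g ∉ L) : Pr g L ≠ 0 := by
  intro h
  have h1 := rep_Pr hL
  rw [h, map_zero, LinearMap.zero_apply] at h1
  have h2 := congrFun h1 (g⁻¹, true)
  simp only [vv, Pi.zero_apply, Pi.smul_apply, if_true, smul_eq_mul, mul_one] at h2
  exact pow_ne_zero L.length two_ne_zero h2.symm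

/-- The main lemma. -/
theorem exists_gen (α : MonoidAlgebra ℚ G) (hα : α ≠ 0) :
    ∃ δ γ : MonoidAlgebra ℚ (HH G), γ ≠ 0 ∧
      Gen (MonoidAlgebra.mapDomainRingHom ℚ (emb G) α) δ ∧ δ * γ = γ := by
  classical
  have hsum : MonoidAlgebra.mapDomainRingHom ℚ (emb G) α
      = ∑ g ∈ α.coeff.support, α.coeff g • tt g := by
    conv_lhs => rw [← MonoidAlgebra.sum_coeff_single α]
    rw [Finsupp.sum, map_sum]
    refine Finset.sum_congr rfl fun g _ => ?_
    simp [tt, MonoidAlgebra.smul_single]
  obtain ⟨g0, hg0⟩ : ∃ g, g ∈ α.coeff.support := by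
    by_contra h
    push Not at h
    apply hα
    apply MonoidAlgebra.coeff_injective
    exact Finsupp.support_eq_empty.1 (Finset.eq_empty_of_forall_notMem h)
  set L := (α.coeff.support.erase g0).toList with hL
  have hgL : g0 ∉ L := by simp [hL]
  have hD : Dr (MonoidAlgebra.mapDomainRingHom ℚ (emb G) α) L = α.coeff g0 • (tt g0 * Pr g0 L) := by
    rw [hsum, Dr_sum, Finset.sum_eq_single g0]
    · intro g hg hne
      rw [Pr_mem (by simp [hL, hne, Finsupp.mem_support_iff.1 hg]), mul_zero, smul_zero]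
    · intro h
      exact absurd hg0 h
  have hc : α.coeff g0 ≠ 0 := Finsupp.mem_support_iff.1 hg0
  have ht : tt g0⁻¹ * tt g0 = 1 := by
    unfold tt
    rw [← map_mul, ← map_mul, inv_mul_cancel, map_one, map_one]
  have h2 : (2 : ℚ) ^ L.length ≠ 0 := pow_ne_zero _ two_ne_zero
  refine ⟨((2 : ℚ) ^ L.length)⁻¹ • Pr g0 L, Pr g0 L, Pr_ne_zero hgL, ?_, ?_⟩
  · have h1 : ((2 : ℚ) ^ L.length)⁻¹ • Pr g0 L = ((((2 : ℚ) ^ L.length)⁻¹ * (α.coeff g0)⁻¹) • tt g0⁻¹)
        * Dr (MonoidAlgebra.mapDomainRingHom ℚ (emb G) α) L := by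
      rw [hD, mul_smul_comm, smul_mul_assoc, ← mul_assoc, ht, one_mul, smul_smul]
      congr 1
      field_simp
    rw [h1]
    exact Gen.left _ (Dr_gen _ _)
  · rw [smul_mul_assoc, Pr_idem, smul_smul, inv_mul_cancel₀ h2, one_smul]

end wreath

end Pool.Agent.Q119.Gener
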